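import Pool.Agent.H88.Berg4

set_option autoImplicit false
open MeasureTheory Metric

namespace Pool.Agent.Results.MP_5b3867_an.Counter

open Pool.Agent.H88.Berg

theorem result :
    ∃ w σ : ℂ → ℝ,
      (∀ z ∈ ball (0:ℂ) 1, 0 < w z) ∧ ContinuousOn w (ball 0 1) ∧ IntegrableOn w (ball 0 1) ∧
      (∀ z ∈ ball (0:ℂ) 1, 0 < σ z) ∧ ContinuousOn σ (ball 0 1) ∧ IntegrableOn σ (ball 0 1) ∧
      (∃ C : NNReal, ∀ f : ℂ → ℂ, Measurable f → (∃ M : ℝ, ∀ z, ‖f z‖ ≤ M) →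
        ∫⁻ z in ball (0:ℂ) 1,
            ‖∫ ζ in ball (0:ℂ) 1, f ζ * (σ ζ : ℂ) / (1 - z * starRingEnd ℂ ζ) ^ 2‖ₑ ^ 2
              * ENNReal.ofReal (w z)
          ≤ (C : ENNReal) * ∫⁻ ζ in ball (0:ℂ) 1, ‖f ζ‖ₑ ^ 2 * ENNReal.ofReal (σ ζ)) ∧
      ¬ (∃ C : NNReal, ∀ f : ℂ → ℂ, Measurable f → (∃ M : ℝ, ∀ z, ‖f z‖ ≤ M) →
        (∃ s : ℝ, s < 1 ∧ ∀ z : ℂ, s < ‖z‖ → f z = 0) →
        ∫⁻ z in ball (0:ℂ) 1,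
            ‖∫ ζ in ball (0:ℂ) 1,
                f ζ * (σ ζ : ℂ) / ((‖1 - z * starRingEnd ℂ ζ‖ ^ 2 : ℝ) : ℂ)‖ₑ ^ 2
              * ENNReal.ofReal (w z)
          ≤ (C : ENNReal) * ∫⁻ ζ in ball (0:ℂ) 1, ‖f ζ‖ₑ ^ 2 * ENNReal.ofReal (σ ζ)) := by
  obtain ⟨N, hN, hbig⟩ := exists_N
  refine ⟨ww, fun z => ‖1 - z‖ ^ 4 * st N z, fun z hz => ww_pos hz, ww_cont, ww_integrable,
    fun z hz => sig_pos hN hz, sig_cont N, sig_int N, upper' N, ?_⟩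
  rintro ⟨C, hC⟩
  exact no_bound hbig C
    (fun f z => ‖∫ ζ in ball (0:ℂ) 1, f ζ * ((‖1 - ζ‖ ^ 4 * st N ζ : ℝ) : ℂ)
      / ((‖1 - z * starRingEnd ℂ ζ‖ ^ 2 : ℝ) : ℂ)‖ₑ)
    (fun s _ hs1 z _ => T_boch N s hs1 z) hC

end Pool.Agent.Results.MP_5b3867_an.Counter
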